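import Pool.Agent.Helper68.LM.Geo

/-!
# Project LM (MP_cb927e_an), module AD: Fourier decay of a curved arc
-/

set_option autoImplicit false

open MeasureTheory Set Filter Topology
open scoped ENNReal RealInnerProductSpace

namespace Pool.Agent.Helper70.LM

open Pool.Agent.Helper68.LM

/-- coordinates of a vector in an orthonormal frame of the plane -/
theorem frame_sq (u v ξ : Pl) (hu : ‖u‖ = 1) (hv : ‖v‖ = 1) (huv : ⟪u, v⟫ = 0) :
    ⟪u, ξ⟫ ^ 2 + ⟪v, ξ⟫ ^ 2 = ‖ξ‖ ^ 2 := by
  have hin : ∀ x y : Pl, ⟪x, y⟫ = y 0 * x 0 + y 1 * x 1 := by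
    intro x y
    simp [PiLp.inner_apply, Fin.sum_univ_two]
  have hu2 : u 0 * u 0 + u 1 * u 1 = 1 := by
    have h := real_inner_self_eq_norm_sq u
    rw [hin, hu] at h
    simpa using h
  have hv2 : v 0 * v 0 + v 1 * v 1 = 1 := by
    have h := real_inner_self_eq_norm_sq v
    rw [hin, hv] at h
    simpa using h
  have huv2 : v 0 * u 0 + v 1 * u 1 = 0 := by rw [← hin]; exact huv
  have hx := real_inner_self_eq_norm_sq ξ
  rw [hin] at hx
  rw [hin, hin, ← hx]
  have e1 : (u 0 * v 1 - u 1 * v 0) ^ 2 = 1 := by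
    linear_combination (v 0 * v 0 + v 1 * v 1) * hu2 + hv2 - (v 0 * u 0 + v 1 * u 1) * huv2
  have e2 : v 1 = (u 0 * v 1 - u 1 * v 0) * u 0 := by
    linear_combination (-v 1) * hu2 + u 1 * huv2
  have e3 : v 0 = -((u 0 * v 1 - u 1 * v 0) * u 1) := by
    linear_combination (-v 0) * hu2 + u 0 * huv2
  set D := u 0 * v 1 - u 1 * v 0
  rw [e2, e3]
  linear_combination (ξ 1 * u 0 - ξ 0 * u 1) ^ 2 * e1 + (ξ 0 * ξ 0 + ξ 1 * ξ 1) * hu2

theorem fm_arc (a b : ℝ) (G : ℝ → Pl) (hab : a ≤ b) (hG : ContinuousOn G (Icc a b)) (ξ : Pl) :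
    fm (arcMeasure a b G) ξ =
      ∫ t in a..b, Complex.exp (((-2 * Real.pi * ⟪G t, ξ⟫ : ℝ) : ℂ) * Complex.I) := by
  unfold fm arcMeasure
  rw [integral_map (hG.aemeasurable measurableSet_Icc)]
  · rw [intervalIntegral.integral_of_le hab, integral_Icc_eq_integral_Ioc]
  · apply Continuous.aestronglyMeasurable
    fun_prop

theorem norm_osc (a b : ℝ) (hab : a ≤ b) (g : ℝ → ℝ) :
    ‖∫ t in a..b, Complex.exp ((g t : ℂ) * Complex.I)‖ ≤ b - a := by
  have h := intervalIntegral.norm_integral_le_of_norm_le_const (a := a) (b := b) (C := 1)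
    (f := fun t => Complex.exp ((g t : ℂ) * Complex.I)) (fun t _ => by
      rw [Complex.norm_exp_ofReal_mul_I])
  rw [abs_of_nonneg (by linarith)] at h
  linarith

theorem hAD (hVDC : StVDC) : StAD := by
  refine ⟨100, by norm_num, ?_⟩
  intro a b κ G hG hκ hκ1 N hN ξ hξ
  obtain ⟨hab, c, u, v, φ, hu, hv, huv, hGe, hφc, hφd, hφ⟩ := hG
  have hr : 0 < ‖ξ‖ := norm_pos_iff.mpr hξ
  set r := ‖ξ‖ with hrdef
  have hL : 0 < b - a := by linarith
  have h2N : (0 : ℝ) < 2 ^ N := by positivity
  have hGc : ContinuousOn G (Icc a b) := by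
    have : G = fun t => c + t • u + φ t • v := funext hGe
    rw [this]
    fun_prop
  rw [fm_arc a b G hab.le hGc]
  by_cases hr1 : r ≤ 1
  · refine (norm_osc a b hab.le _).trans ?_
    have h1 : 1 ≤ Real.sqrt (2 ^ N / r) := by
      rw [Real.one_le_sqrt, one_le_div hr]
      exact hr1.trans (one_le_pow₀ (by norm_num))
    nlinarith
  push Not at hr1
  set α := ⟪u, ξ⟫ with hα
  set β := ⟪v, ξ⟫ with hβ
  have hαβ : α ^ 2 + β ^ 2 = r ^ 2 := frame_sq u v ξ hu hv huv
  set g : ℝ → ℝ := fun t => -2 * Real.pi * (⟪c, ξ⟫ + t * α + φ t * β) with hg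
  have hgG : ∀ t, -2 * Real.pi * ⟪G t, ξ⟫ = g t := by
    intro t
    rw [hGe, inner_add_left, inner_add_left, real_inner_smul_left, real_inner_smul_left]
  have hfun : (fun t => Complex.exp (((-2 * Real.pi * ⟪G t, ξ⟫ : ℝ) : ℂ) * Complex.I)) =
      fun t => Complex.exp ((g t : ℂ) * Complex.I) := by
    funext t
    rw [hgG]
  rw [hfun]
  have hopen : IsOpen (Ioo a b) := isOpen_Ioo
  have hd1 : ∀ t ∈ Ioo a b, DifferentiableAt ℝ φ t := fun t ht =>
    (hφd.differentiableOn (by norm_num)).differentiableAt (hopen.mem_nhds ht)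
  have hφd1 : ContDiffOn ℝ 1 (deriv φ) (Ioo a b) := hφd.deriv_of_isOpen hopen (by norm_num)
  have hd2 : ∀ t ∈ Ioo a b, DifferentiableAt ℝ (deriv φ) t := fun t ht =>
    (hφd1.differentiableOn (by norm_num)).differentiableAt (hopen.mem_nhds ht)
  have hgd : ∀ t ∈ Ioo a b, deriv g t = -2 * Real.pi * (α + deriv φ t * β) := by
    intro t ht
    have h1 : HasDerivAt g (-2 * Real.pi * (0 + 1 * α + deriv φ t * β)) t := by
      apply HasDerivAt.const_mul
      exact ((hasDerivAt_const t _).add ((hasDerivAt_id t).mul_const α)).add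
        ((hd1 t ht).hasDerivAt.mul_const β)
    rw [h1.deriv]
    ring
  have hgdd : ∀ t ∈ Ioo a b, deriv (deriv g) t = -2 * Real.pi * (deriv (deriv φ) t * β) := by
    intro t ht
    have h0 : deriv g =ᶠ[𝓝 t] fun s => -2 * Real.pi * (α + deriv φ s * β) := by
      filter_upwards [hopen.mem_nhds ht] with s hs
      exact hgd s hs
    rw [h0.deriv_eq]
    have h1 : HasDerivAt (fun s => -2 * Real.pi * (α + deriv φ s * β))
        (-2 * Real.pi * (0 + deriv (deriv φ) t * β)) t := by
      apply HasDerivAt.const_mul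
      exact (hasDerivAt_const t _).add ((hd2 t ht).hasDerivAt.mul_const β)
    rw [h1.deriv]
    ring
  have hgc : ContinuousOn g (Icc a b) := by
    rw [hg]
    fun_prop
  have hgcd : ContDiffOn ℝ 2 g (Ioo a b) := by
    rw [hg]
    fun_prop
  have hpi : 3 < Real.pi := Real.pi_gt_three
  -- the bound wanted
  have hkey : ∀ y : ℝ, 0 ≤ y → y ^ 2 ≤ 100 / (κ * r) → y ≤ (b - a) * Real.sqrt (2 ^ N / r) := by
    intro y hy hy2
    apply le_of_sq_le_sq _ (by positivity)
    rw [mul_pow, Real.sq_sqrt (by positivity)]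
    refine hy2.trans ?_
    rw [div_le_iff₀ (by positivity)] at hN
    rw [div_le_iff₀ (by positivity)]
    have : (b - a) ^ 2 * (2 ^ N / r) * (κ * r) = 2 ^ N * (κ * (b - a) ^ 2) := by
      field_simp
    rw [this]
    exact hN
  by_cases hβr : r / 3 ≤ |β|
  · -- second bound
    set μ := 2 * Real.pi * κ * r / 3 with hμ
    have hμ0 : 0 < μ := by positivity
    have h2 := (hVDC a b μ g hab hμ0 hgc hgcd).2
    have hsign : (∀ t ∈ Ioo a b, μ ≤ deriv (deriv g) t) ∨
        (∀ t ∈ Ioo a b, deriv (deriv g) t ≤ -μ) := by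
      rcases le_or_gt 0 β with hb | hb
      · right
        intro t ht
        rw [hgdd t ht]
        rw [abs_of_nonneg hb] at hβr
        have h3 := (hφ t ht).2
        have h4 : κ * (r / 3) ≤ deriv (deriv φ) t * β :=
          mul_le_mul h3 hβr (by positivity) (hκ.le.trans h3)
        rw [hμ]
        nlinarith
      · left
        intro t ht
        rw [hgdd t ht]
        rw [abs_of_neg hb] at hβr
        have h3 := (hφ t ht).2
        have h4 : κ * (r / 3) ≤ deriv (deriv φ) t * (-β) :=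
          mul_le_mul h3 hβr (by positivity) (hκ.le.trans h3)
        rw [hμ]
        nlinarith
    refine (h2 hsign).trans (hkey _ (by positivity) ?_)
    rw [div_pow, Real.sq_sqrt hμ0.le, hμ, div_le_div_iff₀ (by positivity) (by positivity)]
    have : 0 < κ * r := by positivity
    nlinarith
  · -- first bound
    push Not at hβr
    have h1 := (hVDC a b r g hab hr hgc hgcd).1
    have hα9 : 9 / 10 * r ≤ |α| := by
      apply le_of_sq_le_sq _ (abs_nonneg _)
      rw [sq_abs]
      have : β ^ 2 ≤ (r / 3) ^ 2 := by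
        rw [← sq_abs β]
        exact pow_le_pow_left₀ (abs_nonneg _) hβr.le 2
      nlinarith
    have hsign : (∀ t ∈ Ioo a b, 0 ≤ deriv (deriv g) t) ∨
        (∀ t ∈ Ioo a b, deriv (deriv g) t ≤ 0) := by
      rcases le_or_gt 0 β with hb | hb
      · right
        intro t ht
        rw [hgdd t ht]
        have h3 := (hφ t ht).2
        have h4 : 0 ≤ deriv (deriv φ) t * β := mul_nonneg (hκ.le.trans h3) hb
        nlinarith
      · left
        intro t ht
        rw [hgdd t ht]
        have h3 := (hφ t ht).2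
        have h4 : deriv (deriv φ) t * β ≤ 0 :=
          mul_nonpos_of_nonneg_of_nonpos (hκ.le.trans h3) hb.le
        nlinarith
    have hlow : ∀ t ∈ Ioo a b, r ≤ |deriv g t| := by
      intro t ht
      rw [hgd t ht, abs_mul, abs_mul, abs_of_pos Real.pi_pos]
      have h3 := (hφ t ht).1
      have h4 : |deriv φ t * β| ≤ r / 3 := by
        rw [abs_mul]
        have := mul_le_mul h3 hβr.le (abs_nonneg _) zero_le_one
        linarith
      have h5 : |α| - |deriv φ t * β| ≤ |α + deriv φ t * β| := by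
        have := abs_sub_abs_le_abs_sub α (-(deriv φ t * β))
        rw [abs_neg, sub_neg_eq_add] at this
        exact this
      have h6 : (1 / 2 : ℝ) * r ≤ |α + deriv φ t * β| := by linarith
      have h7 : |(-2 : ℝ)| = 2 := by norm_num
      rw [h7]
      nlinarith
    refine (h1 hsign hlow).trans (hkey _ (by positivity) ?_)
    rw [div_pow, div_le_div_iff₀ (by positivity) (by positivity)]
    have h8 : κ * r ≤ r ^ 2 := by nlinarith
    nlinarith

end Pool.Agent.Helper70.LM
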